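import Mathlib

/-!
# MP_0a88e3_nt : minimal symmetric prime sums around the n-th prime

Write `p_k` for the `k`-th prime, so `p_k = Nat.nth Nat.Prime (k - 1)`.

Theorem: for infinitely many `n`, `p_{n-i} + p_{n+i} - 2 p_n ≥ i² / (6 n)` for all `0 < i < n`.
So for every `M` the minimum over all `i ≥ √(6 M n)` is at least `M` for infinitely many `n`.

Proof: take `n` minimising `p_k - (k log k) / 2 - s k` over all `k ≥ 1`, for large `s`; the minimum
exists by Chebyshev's upper bound for the number of primes.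
-/

set_option autoImplicit false

open Filter

namespace Pool.Agent.Results.MP_0a88e3_nt.QuadraticSurplus

lemma upp : ∀ᶠ n : ℕ in atTop, (Nat.primeCounting n : ℝ) * Real.log n ≤ 3 / 2 * n := by
  have h := Chebyshev.eventually_primeCounting_le (ε := 1 / 10) (by norm_num)
  have h' := (tendsto_natCast_atTop_atTop (R := ℝ)).eventually h
  filter_upwards [h', eventually_ge_atTop 2] with n hn h2
  rw [Nat.floor_natCast] at hn
  have hlog : 0 < Real.log n := Real.log_pos (by exact_mod_cast h2)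
  rw [le_div_iff₀ hlog] at hn
  have h4 : Real.log 4 = 2 * Real.log 2 := by
    rw [show (4 : ℝ) = 2 ^ 2 by norm_num, Real.log_pow]; norm_num
  have h5 := Real.log_two_lt_d9
  have hn0 : (0 : ℝ) ≤ n := Nat.cast_nonneg n
  have h6 : (Real.log 4 + 1 / 10) * n ≤ 3 / 2 * n := by
    apply mul_le_mul_of_nonneg_right _ hn0
    linarith
  linarith

lemma piP (k : ℕ) : Nat.primeCounting (Nat.nth Nat.Prime k) = k + 1 := by
  rw [Nat.primeCounting, Nat.primeCounting', Nat.count_succ,
    Nat.count_nth_of_infinite Nat.infinite_setOfPred_prime, if_pos (Nat.prime_nth_prime k)]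

lemma succ_le_P (k : ℕ) : k + 1 ≤ Nat.nth Nat.Prime k := by
  have h1 : k ≤ Nat.nth Nat.Prime k :=
    (Nat.nth_strictMono Nat.infinite_setOfPred_prime).le_apply
  rcases Nat.eq_or_lt_of_le h1 with h | h
  · exfalso
    have h2 := piP k
    rw [← h] at h2
    have h3 : Nat.primeCounting k ≤ k := by
      rcases Nat.eq_zero_or_pos k with h0 | h0
      · subst h0; simp
      · calc Nat.primeCounting k = Nat.count Nat.Prime (k + 1) := rfl
          _ = Nat.count Nat.Prime 1 + Nat.count (fun j => Nat.Prime (1 + j)) k := by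
            rw [add_comm k 1, Nat.count_add]
          _ ≤ 0 + k := by
            apply Nat.add_le_add _ (Nat.count_le _)
            simp [Nat.count_succ, Nat.not_prime_zero]
          _ = k := by omega
    omega
  · exact h

/-- `h k = p_k - (k log k) / 2`. -/
noncomputable def h (k : ℕ) : ℝ := (Nat.nth Nat.Prime (k - 1) : ℝ) - (1 / 2) * (k * Real.log k)

lemma h_large (s : ℝ) : ∀ᶠ k : ℕ in atTop, 0 ≤ h k - s * k := by
  have ht : Tendsto (fun k : ℕ => Nat.nth Nat.Prime (k - 1)) atTop atTop :=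
    tendsto_atTop_mono (f := fun k => k) (fun k => by have := succ_le_P (k - 1); omega) tendsto_id
  have hl : Tendsto (fun k : ℕ => Real.log (k : ℝ)) atTop atTop :=
    Real.tendsto_log_atTop.comp tendsto_natCast_atTop_atTop
  filter_upwards [ht.eventually upp, hl.eventually_ge_atTop (6 * s), eventually_ge_atTop 2]
    with k h1 h2 h3
  rw [piP] at h1
  have h4 : ((k - 1 + 1 : ℕ) : ℝ) = k := by
    rw [Nat.sub_add_cancel (by omega)]
  rw [h4] at h1
  have hk0 : (0 : ℝ) < k := by
    have : 0 < k := by omega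
    exact_mod_cast this
  have h5 : Real.log k ≤ Real.log (Nat.nth Nat.Prime (k - 1) : ℝ) := by
    apply Real.log_le_log hk0
    have := succ_le_P (k - 1)
    have h6 : k ≤ Nat.nth Nat.Prime (k - 1) := by omega
    exact_mod_cast h6
  have h7 : (k : ℝ) * Real.log k ≤ 3 / 2 * (Nat.nth Nat.Prime (k - 1) : ℝ) :=
    le_trans (mul_le_mul_of_nonneg_left h5 hk0.le) h1
  have h8 : (k : ℝ) * (6 * s) ≤ k * Real.log k := mul_le_mul_of_nonneg_left h2 hk0.le
  unfold h
  linarith

lemma second_diff (n i : ℕ) (hi : 1 ≤ i) (hin : i ≤ n - 1) :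
    (i : ℝ) ^ 2 / (3 * n) ≤ ((n - i : ℕ) : ℝ) * Real.log ((n - i : ℕ) : ℝ) +
      ((n + i : ℕ) : ℝ) * Real.log ((n + i : ℕ) : ℝ) - 2 * (n * Real.log n) := by
  have hi0 : (0 : ℝ) < i := by exact_mod_cast hi
  have hin' : (i : ℝ) + 1 ≤ n := by
    have : i + 1 ≤ n := by omega
    exact_mod_cast this
  have hn0 : (0 : ℝ) < n := by linarith
  rw [Nat.cast_sub (by omega), Nat.cast_add]
  have hd : (0 : ℝ) < n - i := by linarith
  have h1 : 2 * ((i : ℝ) / n) / ((i : ℝ) / n + 2) ≤ Real.log (1 + (i : ℝ) / n) :=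
    Real.le_log_one_add_of_nonneg (by positivity)
  have h2 : Real.log (1 + (i : ℝ) / n) = Real.log ((n : ℝ) + i) - Real.log n := by
    rw [← Real.log_div (by positivity) (by positivity)]
    congr 1
    field_simp
  have h3 : 1 - ((((n : ℝ) - i) / n))⁻¹ ≤ Real.log (((n : ℝ) - i) / n) :=
    Real.one_sub_inv_le_log_of_pos (by positivity)
  rw [Real.log_div hd.ne' hn0.ne'] at h3
  rw [h2] at h1
  have h4 : ((n : ℝ) - i) * (1 - ((((n : ℝ) - i) / n))⁻¹) = -i := by
    field_simp
    ring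
  have h5 : ((n : ℝ) + i) * (2 * ((i : ℝ) / n) / ((i : ℝ) / n + 2)) = i + (i : ℝ) ^ 2 / (2 * n + i) := by
    field_simp
    ring
  have h6 := mul_le_mul_of_nonneg_left h3 hd.le
  have h7 := mul_le_mul_of_nonneg_left h1 (show (0 : ℝ) ≤ n + i by positivity)
  rw [h4] at h6
  rw [h5] at h7
  have h8 : (i : ℝ) ^ 2 / (3 * n) ≤ (i : ℝ) ^ 2 / (2 * n + i) := by
    apply div_le_div_of_nonneg_left (by positivity) (by positivity)
    linarith
  nlinarith

/-- **Theorem.** For infinitely many `n`, `p_{n-i} + p_{n+i} ≥ 2 p_n + i² / (6 n)` for all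
`0 < i < n`. -/
theorem result :
    Set.Infinite {n : ℕ | 2 ≤ n ∧ ∀ i : ℕ, 1 ≤ i → i ≤ n - 1 →
      2 * (Nat.nth Nat.Prime (n - 1) : ℝ) + (i : ℝ) ^ 2 / (6 * n) ≤
        (Nat.nth Nat.Prime (n - i - 1) : ℝ) + (Nat.nth Nat.Prime (n + i - 1) : ℝ)} := by
  apply Set.infinite_of_forall_exists_gt
  intro N0
  obtain ⟨N, hN⟩ : ∃ N, N = N0 + 2 := ⟨_, rfl⟩
  obtain ⟨s, hs⟩ : ∃ s : ℝ, s = 2 * ∑ k ∈ Finset.range (N + 1), |h k| + 2 := ⟨_, rfl⟩
  obtain ⟨K, hK⟩ := eventually_atTop.1 (h_large s)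
  obtain ⟨n, hn, hmin⟩ := Finset.exists_min_image (Finset.Icc 1 (max K N))
    (fun k : ℕ => h k - s * k) ⟨1, Finset.mem_Icc.2 ⟨le_rfl, by omega⟩⟩
  rw [Finset.mem_Icc] at hn
  have hle : ∀ k ∈ Finset.range (N + 1), |h k| ≤ ∑ k ∈ Finset.range (N + 1), |h k| :=
    fun k hk => Finset.single_le_sum (f := fun k => |h k|) (fun _ _ => abs_nonneg _) hk
  have hall : ∀ m : ℕ, 1 ≤ m → h n - s * n ≤ h m - s * m := by
    intro m hm
    rcases le_total m (max K N) with hmK | hmK
    · exact hmin m (Finset.mem_Icc.2 ⟨hm, hmK⟩)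
    · have h1 := hK m (le_trans (le_max_left _ _) hmK)
      have h2 := hmin 1 (Finset.mem_Icc.2 ⟨le_rfl, by omega⟩)
      have h3 := hle 1 (Finset.mem_range.2 (by omega))
      have h4 := le_abs_self (h 1)
      have h5 : 0 ≤ |h 1| := abs_nonneg _
      simp only [Nat.cast_one, mul_one] at h2
      linarith
  have hnN : N ≤ n := by
    by_contra hcon
    push Not at hcon
    have h1 := hall N (by omega)
    have h2 := hle N (Finset.mem_range.2 (by omega))
    have h3 := hle n (Finset.mem_range.2 (by omega))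
    have h4 := le_abs_self (h N)
    have h5 := neg_abs_le (h n)
    have h6 : (n : ℝ) + 1 ≤ N := by exact_mod_cast hcon
    have h7 : 0 ≤ s := by
      rw [hs]
      have : 0 ≤ ∑ k ∈ Finset.range (N + 1), |h k| := Finset.sum_nonneg fun _ _ => abs_nonneg _
      linarith
    nlinarith
  refine ⟨n, ⟨by omega, fun i hi1 hi2 => ?_⟩, by omega⟩
  have ha := hall (n - i) (by omega)
  have hb := hall (n + i) (by omega)
  have hc := second_diff n i hi1 hi2
  unfold h at ha hb
  have e1 : ((n - i : ℕ) : ℝ) = n - i := Nat.cast_sub (by omega)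
  have e2 : ((n + i : ℕ) : ℝ) = n + i := Nat.cast_add _ _
  have e3 : (i : ℝ) ^ 2 / (6 * n) = (1 / 2) * ((i : ℝ) ^ 2 / (3 * n)) := by
    have hn0 : (0 : ℝ) < n := by
      have : 0 < n := by omega
      exact_mod_cast this
    field_simp
    norm_num
  rw [e1] at ha hc
  rw [e2] at hb hc
  rw [e3]
  linarith

end Pool.Agent.Results.MP_0a88e3_nt.QuadraticSurplus
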